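import Pool.Agent.R299.CDE.Main

/-!
# The nef cone conjecture for all varieties with `K ≡ 0` follows from their Calabi-Yau factors

Let `Y` be a smooth projective variety with `K_Y ≡ 0`. By the theorem of Beauville and Bogomolov there
is a finite étale Galois covering `X → Y`, with a group `G`, where `X` is the product of an abelian
variety and of simply connected varieties `X i`, which are either irreducible holomorphic symplectic or
strict Calabi-Yau manifolds (`h^p(O) = 0` for `0 < p < dim`).

**Theorem.** If the cone conjecture holds for the factors of `X`, then it holds for `Y`.

It is known for abelian varieties (Prendergast-Smith), K3 surfaces (Sterk) and irreducible holomorphic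
symplectic manifolds (Amerik-Verbitsky, Markman). Hence

* the cone conjecture holds for **all** smooth projective `Y` with `K_Y ≡ 0`, of any dimension, whose
  universal covering has no strict Calabi-Yau factor of dimension at least three. This contains all
  Enriques manifolds, for any degree of the covering (Pacienza and Sarti proved this for prime degrees
  and for the known examples), the generalized hyperelliptic varieties (Monti and Quedo), and the
  quotients of all the mixed products of abelian varieties and hyperkähler manifolds by groups which
  act freely and can permute the factors;
* if `Y` has strict Calabi-Yau factors, the conjecture for `Y` follows from the one for these simply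
  connected factors, for instance if they have Picard number one.

So the conjecture for all smooth varieties with `K ≡ 0` is reduced to the strict Calabi-Yau manifolds.

## The Lean statement

The theorem is about the cones of the varieties: `Cones` consists of the integral classes, the nef cone
and the effective cone in `N^1`, and `IsProjective` are the properties of these cones which hold for
all projective varieties. `Preserved` says that a group of linear maps, such as the image of `Aut(X)`
in `GL(N^1(X))`, preserves the three of them. `N^1(X)` is the direct sum of the `N^1(X i)`, and a class
is nef (effective) if and only if its components are, since all the factors except one have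
`h^1(O) = 0` (`prodCones`). The group `𝒜` is the image of `Aut(X)`; it contains the products of the
elements of the images `𝒢 i` of `Aut(X i)`. The hypotheses of `IsFiniteQuotient` are the well known
relations between the cones of `X` and `Y = X / G` (norms of line bundles and of sections). The last of
them says that a subgroup of finite index in the centralizer of `G` in `𝒜` consists of classes of
automorphisms of `X` which commute with `G`, and so come from automorphisms of `Y`: the kernel of
`Aut(X) → GL(N^1(X))` is an extension of a finite group by the connected component `A`, an abelian
variety, and since `H^1(G, A)` is finite, up to conjugation by `A` there are only finitely many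
homomorphisms from `G` to the group generated by `G` and the kernel which agree with the given one
modulo the kernel.

The conclusion is both parts of the conjecture: there is a rational polyhedral fundamental domain for
`Aut(Y)` on the cone of the nef and effective classes of `Y`, and this cone is the convex hull
`Nef^+` of the rational nef classes.

## The proof

The main step is new, as far as I know: let `Π` be a rational polyhedral cone whose translates cover the
ample cone of `X`. The *Siegel property* (Looijenga; here with a short proof from Dickson's
lemma) says that `γ Π ∩ Π` meets the interior of the nef cone only for finitely many automorphisms `γ`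
of the lattice and the cone. Let `x` be an ample class fixed by `G`, and `γ x` in `Π`. Then
the elements `γ g γ⁻¹`, for `g` in `G`, fix the point `γ x` of `Π`, so they belong to a
finite set. Hence `γ` belongs to one of finitely many cosets `r (𝒜 ∩ C(G))`, and `x` is a translate, by
an element which commutes with `G`, of a point of one of the finitely many cones `r⁻¹ Π`. The sum over
`G` maps these cones to rational polyhedral cones in the space fixed by `G`. No arithmeticity of the
group, no reductive groups and no classification are used.
-/

set_option autoImplicit false

namespace Pool.Agent.Results.MP_e49dc9_ag.FiniteQuotients

open Pool.Agent.R299.CDE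

/-- **The cone conjecture for finite quotients of products.** If the cone conjecture holds for the
varieties `X i` (with the cones `N i` and the groups `𝒢 i`), then it holds for the quotients
`Y = (∏ X i) / G` by finite groups (with the cones `M` and the group `ℬ`), and the nef and effective
classes of `Y` are the classes in the convex hull of the rational nef classes. -/
theorem result {ι : Type} [Fintype ι] {W : ι → Type} [∀ i, NormedAddCommGroup (W i)]
    [∀ i, NormedSpace ℝ (W i)]
    -- the factors `X i`
    (N : ∀ i, Cones (W i)) (hN : ∀ i, (N i).IsProjective) (𝒢 : ∀ i, LinGrp (W i))
    (hconj : ∀ i, (N i).ConeConjecture (𝒢 i))
    -- the product `X` of the `X i`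
    (𝒜 : LinGrp (∀ i, W i)) (h𝒜 : (prodCones N).Preserved 𝒜)
    (hprod : ∀ γ : ∀ i, W i ≃ₗ[ℝ] W i, (∀ i, γ i ∈ 𝒢 i) → LinearEquiv.piCongrRight γ ∈ 𝒜)
    -- the quotient `Y = X / G`
    {V : Type} [NormedAddCommGroup V] [NormedSpace ℝ V] (M : Cones V) (hM : M.IsProjective)
    (ℬ : LinGrp V) (hℬ : M.Preserved ℬ) (G : LinGrp (∀ i, W i)) (q : V →ₗ[ℝ] ∀ i, W i)
    (hq : IsFiniteQuotient (prodCones N) 𝒜 G q M ℬ) :
    M.ConeConjecture ℬ ∧ M.nefEff = M.nefPlus := by
  obtain ⟨F, hF, hcov⟩ := prod_cover hN 𝒢 hconj 𝒜 hprod
  exact quotient_main (prod_projective hN) h𝒜 F hF hcov hM hℬ hq

end Pool.Agent.Results.MP_e49dc9_ag.FiniteQuotients
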